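import Mathlib

/-! A measurable coboundary that is bounded below has nonpositive mean. -/

namespace Pool.Agent.MP_3ee8cb_gt.CZB

open MeasureTheory Filter Topology

theorem clamp_sub {M C x y : ℝ} (hC : 0 ≤ C) (h : -C ≤ y - x) :
    -C ≤ max (-M) (min M y) - max (-M) (min M x) := by
  simp only [max_def, min_def]
  split_ifs <;> linarith

theorem clamp_abs {M : ℝ} (hM : 0 ≤ M) (x : ℝ) : |max (-M) (min M x)| ≤ M := by
  rw [abs_le]
  exact ⟨le_max_left _ _, max_le (by linarith) (min_le_left _ _)⟩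

theorem clamp_ev (x : ℝ) : ∀ᶠ n : ℕ in atTop, max (-(n : ℝ)) (min (n : ℝ) x) = x := by
  filter_upwards [tendsto_natCast_atTop_atTop.eventually_ge_atTop |x|] with n hn
  have h := abs_le.1 hn
  rw [min_eq_right h.2, max_eq_right h.1]

/-- If `F - C ≤ g ∘ T - g` with `F ≥ 0`, then the mean of `F` is at most `C`. -/
theorem cob {Ω : Type*} [MeasurableSpace Ω] {μ : Measure Ω} [IsFiniteMeasure μ] {T : Ω → Ω}
    (hT : MeasurePreserving T μ μ) {g F : Ω → ℝ} (hg : AEMeasurable g μ) {C : ℝ} (hC : 0 ≤ C)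
    (hF0 : ∀ᵐ x ∂μ, 0 ≤ F x) (h : ∀ᵐ x ∂μ, F x - C ≤ g (T x) - g x) :
    ∫⁻ x, ENNReal.ofReal (F x) ∂μ ≤ ENNReal.ofReal C * μ Set.univ := by
  set c : ℕ → Ω → ℝ := fun n x => max (-(n : ℝ)) (min (n : ℝ) (g x)) with hc
  have hm : ∀ n, AEMeasurable (c n) μ := fun n =>
    aemeasurable_const.max (aemeasurable_const.min hg)
  have hi : ∀ n, Integrable (c n) μ := fun n =>
    Integrable.of_bound (hm n).aestronglyMeasurable n
      (Eventually.of_forall fun x => clamp_abs (Nat.cast_nonneg n) _)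
  have hiT : ∀ n, Integrable (fun x => c n (T x)) μ := fun n =>
    (hT.integrable_comp (hi n).aestronglyMeasurable).2 (hi n)
  have hint : ∀ n, ∫ x, c n (T x) ∂μ = ∫ x, c n x ∂μ := fun n => by
    have h1 := integral_map hT.measurable.aemeasurable
      (f := c n) (by rw [hT.map_eq]; exact (hm n).aestronglyMeasurable)
    rw [hT.map_eq] at h1
    exact h1.symm
  have hpos : ∀ n, 0 ≤ᵐ[μ] fun x => c n (T x) - c n x + C := fun n => by
    filter_upwards [hF0, h] with x h0 h1
    have h2 := clamp_sub (M := n) hC (x := g x) (y := g (T x)) (by linarith)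
    simp only [Pi.zero_apply, hc]
    linarith
  have hI : ∀ n, Integrable (fun x => c n (T x) - c n x + C) μ := fun n =>
    ((hiT n).sub (hi n)).add (integrable_const C)
  have hval : ∀ n, ∫⁻ x, ENNReal.ofReal (c n (T x) - c n x + C) ∂μ =
      ENNReal.ofReal C * μ Set.univ := fun n => by
    have hs : Integrable (fun x => c n (T x) - c n x) μ := (hiT n).sub (hi n)
    rw [← ofReal_integral_eq_lintegral_ofReal (hI n) (hpos n),
      integral_add hs (integrable_const C), integral_sub (hiT n) (hi n), hint,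
      sub_self, zero_add, integral_const, smul_eq_mul, mul_comm, ENNReal.ofReal_mul hC,
      ofReal_measureReal]
  have hlim : ∀ᵐ x ∂μ, ENNReal.ofReal (F x) ≤
      liminf (fun n => ENNReal.ofReal (c n (T x) - c n x + C)) atTop := by
    filter_upwards [h] with x hx
    refine le_liminf_of_le (by isBoundedDefault) ?_
    filter_upwards [clamp_ev (g x), clamp_ev (g (T x))] with n h1 h2
    simp only [hc, h1, h2]
    exact ENNReal.ofReal_le_ofReal (by linarith)
  calc ∫⁻ x, ENNReal.ofReal (F x) ∂μ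
      ≤ ∫⁻ x, liminf (fun n => ENNReal.ofReal (c n (T x) - c n x + C)) atTop ∂μ :=
        lintegral_mono_ae hlim
    _ ≤ liminf (fun n => ∫⁻ x, ENNReal.ofReal (c n (T x) - c n x + C) ∂μ) atTop :=
        lintegral_liminf_le' fun n => (hI n).aemeasurable.ennreal_ofReal
    _ = ENNReal.ofReal C * μ Set.univ := by simp only [hval, liminf_const]

end Pool.Agent.MP_3ee8cb_gt.CZB
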